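import Pool.Agent.Y267.RS.Stm

set_option autoImplicit false

/-!
# Arithmetic of the Liouville number
-/

namespace Pool.Agent.Y79.RS

open Pool.Agent.Y267.RS Finset

theorem Q_succ (j : ℕ) : Q (j + 1) = Q j ^ 3 := by
  unfold Q
  rw [← pow_mul]
  congr 1
  rw [pow_succ]
  ring

theorem Q_ge (j : ℕ) : 1024 ≤ Q j := by
  have h : 2 ^ 10 ≤ Q j := by
    apply Nat.pow_le_pow_right (by norm_num)
    have : 0 < 3 ^ j := by positivity
    omega
  exact h

theorem Q_pos (j : ℕ) : 0 < Q j := lt_of_lt_of_le (by norm_num) (Q_ge j)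

theorem Qr_ge (j : ℕ) : (1024 : ℝ) ≤ Q j := by exact_mod_cast Q_ge j

theorem Qr_pos (j : ℕ) : (0 : ℝ) < Q j := by exact_mod_cast Q_pos j

theorem Qr_succ (j : ℕ) : (Q (j + 1) : ℝ) = (Q j : ℝ) ^ 3 := by
  rw [Q_succ]
  push_cast
  rfl

theorem Q_add (k i : ℕ) : Q k * 2 ^ (20 * i) ≤ Q (k + i) := by
  unfold Q
  rw [← pow_add]
  apply Nat.pow_le_pow_right (by norm_num)
  have h1 : 2 * i + 1 ≤ 3 ^ i := by
    induction i with
    | zero => norm_num
    | succ i ih => rw [pow_succ]; omega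
  have h2 : 1 ≤ 3 ^ k := Nat.one_le_pow _ _ (by norm_num)
  rw [pow_add]
  nlinarith

theorem term_le (k i : ℕ) : 1 / (Q (k + i) : ℝ) ≤ 1 / (Q k : ℝ) * (1 / 2 ^ 20) ^ i := by
  have h : (Q k : ℝ) * 2 ^ (20 * i) ≤ Q (k + i) := by exact_mod_cast Q_add k i
  have h1 := Qr_pos k
  have h2 : 1 / (Q k : ℝ) * (1 / 2 ^ 20) ^ i = 1 / ((Q k : ℝ) * 2 ^ (20 * i)) := by
    rw [one_div_pow, ← pow_mul, one_div_mul_one_div]
  rw [h2]
  exact one_div_le_one_div_of_le (by positivity) h

theorem sum_geo (k : ℕ) : Summable (fun i : ℕ => 1 / (Q k : ℝ) * (1 / 2 ^ 20) ^ i) :=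
  (summable_geometric_of_lt_one (by norm_num) (by norm_num)).mul_left _

theorem summable_tail (k : ℕ) : Summable (fun i : ℕ => 1 / (Q (k + i) : ℝ)) :=
  Summable.of_nonneg_of_le (fun i => by have := Qr_pos (k + i); positivity) (term_le k)
    (sum_geo k)

theorem tail_le (k : ℕ) : ∑' i : ℕ, 1 / (Q (k + i) : ℝ) ≤ 1.0001 / (Q k : ℝ) := by
  have h1 : ∑' i : ℕ, 1 / (Q (k + i) : ℝ) ≤ ∑' i : ℕ, 1 / (Q k : ℝ) * (1 / 2 ^ 20) ^ i :=
    (summable_tail k).tsum_le_tsum (term_le k) (sum_geo k)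
  rw [tsum_mul_left, tsum_geometric_of_lt_one (by norm_num) (by norm_num)] at h1
  refine h1.trans ?_
  have h2 := Qr_pos k
  rw [div_mul_eq_mul_div, one_mul]
  apply div_le_div_of_nonneg_right _ h2.le
  norm_num

theorem le_tail (k : ℕ) : 1 / (Q k : ℝ) ≤ ∑' i : ℕ, 1 / (Q (k + i) : ℝ) := by
  have h := (summable_tail k).le_tsum 0 (fun i _ => by have := Qr_pos (k + i); positivity)
  simpa using h

theorem summable_inv : Summable (fun j : ℕ => 1 / (Q j : ℝ)) := by
  have h := summable_tail 0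
  simpa using h

theorem a2 : A2Stm := by
  intro j
  have h0 := Qr_pos j
  have h1 := tail_le (j + 1)
  have h2 := le_tail (j + 1)
  have h3 : ∀ c : ℝ, (Q j : ℝ) * (c / (Q (j + 1) : ℝ)) = c / (Q j : ℝ) ^ 2 := by
    intro c
    rw [Qr_succ]
    field_simp
  unfold th
  constructor
  · rw [← h3]
    exact mul_le_mul_of_nonneg_left h2 h0.le
  · have h4 := mul_le_mul_of_nonneg_left h1 h0.le
    rw [h3] at h4
    refine h4.trans ?_
    apply div_le_div_of_nonneg_right _ (by positivity)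
    norm_num

theorem th_pos (j : ℕ) : 0 < th j := by
  have h0 := Qr_pos j
  have h1 := (a2 j).1
  have : 0 < 1 / (Q j : ℝ) ^ 2 := by positivity
  linarith

theorem summable_th : Summable th := by
  apply Summable.of_nonneg_of_le (fun j => (th_pos j).le) (fun j => (a2 j).2.trans ?_)
    (summable_inv.mul_left 1.001)
  have h0 := Qr_ge j
  have h1 := Qr_pos j
  rw [mul_one_div]
  apply div_le_div_of_nonneg_left (by norm_num) h1
  nlinarith

theorem a1 : A1Stm := by
  refine ⟨summable_inv, summable_th, ?_, ?_⟩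
  · have h := le_tail 0
    simp only [zero_add] at h
    have h1 := Qr_pos 0
    have h2 : 0 < 1 / (Q 0 : ℝ) := by positivity
    unfold al
    linarith
  · have h := tail_le 0
    simp only [zero_add] at h
    have h1 : (Q 0 : ℝ) = 1024 := by
      have : Q 0 = 1024 := by
        unfold Q
        norm_num
      rw [this]
      norm_num
    rw [h1] at h
    unfold al
    refine lt_of_le_of_lt h ?_
    norm_num

/-- the numerator -/
def num (j : ℕ) : ℕ := ∑ i ∈ range (j + 1), Q j / Q i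

theorem Q_dvd {i j : ℕ} (h : i ≤ j) : Q i ∣ Q j := by
  unfold Q
  apply pow_dvd_pow
  exact Nat.mul_le_mul_left _ (Nat.pow_le_pow_right (by norm_num) h)

theorem Qal (j : ℕ) : (Q j : ℝ) * al = (num j : ℝ) + th j := by
  have h1 := summable_inv.sum_add_tsum_nat_add (j + 1)
  have h2 : ∑' i : ℕ, 1 / (Q (i + (j + 1)) : ℝ) = ∑' i : ℕ, 1 / (Q (j + 1 + i) : ℝ) := by
    apply tsum_congr
    intro i
    rw [add_comm i]
  rw [h2] at h1
  unfold al th
  rw [← h1, mul_add]
  congr 1
  unfold num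
  rw [Finset.mul_sum]
  push_cast
  apply Finset.sum_congr rfl
  intro i hi
  have hi' : i ≤ j := by
    have := Finset.mem_range.1 hi
    omega
  rw [Nat.cast_div (Q_dvd hi') (Qr_pos i).ne']
  ring

theorem num_odd (j : ℕ) : ¬ (2 ∣ num j) := by
  unfold num
  rw [Finset.sum_range_succ, Nat.div_self (Q_pos j)]
  have h1 : 2 ∣ ∑ i ∈ range j, Q j / Q i := by
    apply Finset.dvd_sum
    intro i hi
    have hi' : i < j := Finset.mem_range.1 hi
    unfold Q
    rw [Nat.pow_div (Nat.mul_le_mul_left _ (Nat.pow_le_pow_right (by norm_num) hi'.le))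
      (by norm_num)]
    apply dvd_pow_self
    have : 3 ^ i < 3 ^ j := Nat.pow_lt_pow_right (by norm_num) hi'
    omega
  omega

theorem num_coprime (j : ℕ) : Nat.Coprime (Q j) (num j) := by
  unfold Q
  apply Nat.Coprime.pow_left
  exact (Nat.Prime.coprime_iff_not_dvd Nat.prime_two).2 (num_odd j)

theorem coe_nat (n : ℕ) : (((n : ℝ)) : T1) = 0 := by
  rw [AddCircle.coe_eq_zero_iff]
  exact ⟨n, by simp⟩

theorem a3 : A3Stm := by
  intro j
  rw [Qal, AddCircle.coe_add, coe_nat, zero_add]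

theorem norm_small {y : ℝ} (h : |y| ≤ 1 / 2) : ‖((y : ℝ) : T1)‖ = |y| := by
  rw [AddCircle.norm_coe_eq_abs_iff 1 one_ne_zero]
  simpa using h

theorem a4 : A4Stm := by
  intro j s hs hd
  have hq := Qr_pos j
  rw [AddCircle.norm_eq]
  simp only [inv_one, one_mul, mul_one]
  set m : ℤ := round ((s : ℝ) * al) with hm
  have h1 : (s : ℝ) * al - m = ((s * num j - m * Q j : ℤ) : ℝ) / Q j + s * th j / Q j := by
    have h2 := Qal j
    field_simp
    push_cast
    linear_combination (s : ℝ) * h2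
  have h2 : (s * num j - m * Q j : ℤ) ≠ 0 := by
    intro h0
    apply hd
    have h3 : (Q j : ℤ) ∣ s * num j := ⟨m, by linarith⟩
    have h4 : IsCoprime (Q j : ℤ) (num j : ℤ) :=
      Nat.isCoprime_iff_coprime.2 (num_coprime j)
    exact h4.dvd_of_dvd_mul_right h3
  have h3 : (1 : ℝ) ≤ |((s * num j - m * Q j : ℤ) : ℝ)| := by
    rw [← Int.cast_abs]
    exact_mod_cast Int.one_le_abs h2
  rw [h1]
  have h4 : |((s * num j - m * Q j : ℤ) : ℝ) / Q j| - |(s : ℝ) * th j / Q j| ≤
      |((s * num j - m * Q j : ℤ) : ℝ) / Q j + s * th j / Q j| := by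
    have := abs_sub_abs_le_abs_sub (((s * num j - m * Q j : ℤ) : ℝ) / Q j)
      (-((s : ℝ) * th j / Q j))
    rw [abs_neg, sub_neg_eq_add] at this
    exact this
  refine le_trans ?_ h4
  rw [abs_div, abs_div, abs_of_pos hq, abs_mul, abs_of_pos (th_pos j), ← sub_div,
    div_le_div_iff₀ (by positivity) hq]
  nlinarith

theorem a5 : A5Stm := by
  intro j l hl
  have h1 : ((((Q j : ℝ) * l) * al : ℝ) : T1) = (((l : ℝ) * th j : ℝ) : T1) := by
    have h2 : ((Q j : ℝ) * l) * al = ((l * (num j : ℤ) : ℤ) : ℝ) + l * th j := by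
      have h3 := Qal j
      push_cast
      linear_combination (l : ℝ) * h3
    rw [h2, AddCircle.coe_add]
    have h4 : ((((l * (num j : ℤ) : ℤ) : ℝ)) : T1) = 0 := by
      rw [AddCircle.coe_eq_zero_iff]
      exact ⟨l * (num j : ℤ), by simp⟩
    rw [h4, zero_add]
  rw [h1, norm_small, abs_mul, abs_of_pos (th_pos j)]
  rw [abs_mul, abs_of_pos (th_pos j)]
  exact hl

theorem th_succ (j : ℕ) : th (j + 1) ≤ th j / 1000 := by
  have h1 := (a2 (j + 1)).2
  have h2 := (a2 j).1
  have h0 := Qr_ge j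
  have h3 := Qr_pos j
  rw [Qr_succ] at h1
  refine h1.trans ?_
  have h4 : 1 / (Q j : ℝ) ^ 2 / 1000 ≤ th j / 1000 := by linarith
  refine le_trans ?_ h4
  rw [div_div, div_le_div_iff₀ (by positivity) (by positivity)]
  have h5 : (1024 : ℝ) ^ 4 ≤ (Q j : ℝ) ^ 4 := pow_le_pow_left₀ (by norm_num) h0 4
  have h6 : ((Q j : ℝ) ^ 3) ^ 2 = (Q j : ℝ) ^ 2 * (Q j : ℝ) ^ 4 := by ring
  rw [h6]
  have h7 : 0 < (Q j : ℝ) ^ 2 := by positivity
  nlinarith

theorem th_geo (k i : ℕ) : th (k + i) ≤ th k * (1 / 1000) ^ i := by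
  induction i with
  | zero => simp
  | succ i ih =>
    have h := th_succ (k + i)
    rw [← add_assoc, pow_succ]
    linarith

theorem th_tail (k : ℕ) : 0 < ∑' i : ℕ, th (k + i) ∧ ∑' i : ℕ, th (k + i) ≤ 1.5 * th k := by
  have h0 := th_pos k
  have hs : Summable (fun i : ℕ => th k * (1 / 1000) ^ i) :=
    (summable_geometric_of_lt_one (by norm_num) (by norm_num)).mul_left _
  have hs' : Summable (fun i : ℕ => th (k + i)) :=
    Summable.of_nonneg_of_le (fun i => (th_pos _).le) (th_geo k) hs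
  constructor
  · have h := hs'.le_tsum 0 (fun i _ => (th_pos _).le)
    simp only [add_zero] at h
    linarith
  · have h1 := hs'.tsum_le_tsum (th_geo k) hs
    rw [tsum_mul_left, tsum_geometric_of_lt_one (by norm_num) (by norm_num)] at h1
    refine h1.trans ?_
    rw [mul_comm]
    apply mul_le_mul_of_nonneg_right _ h0.le
    norm_num

theorem be_sub (k : ℕ) : be - uu k = 2 * ∑' i : ℕ, th (k + i) := by
  have h1 := summable_th.sum_add_tsum_nat_add k
  have h2 : ∑' i : ℕ, th (i + k) = ∑' i : ℕ, th (k + i) := by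
    apply tsum_congr
    intro i
    rw [add_comm i]
  rw [h2] at h1
  unfold be uu
  linarith

theorem a6 : A6Stm := by
  constructor
  · have h1 := be_sub 0
    have h2 := th_tail 0
    have h3 : uu 0 = 0 := by simp [uu]
    rw [h3, sub_zero] at h1
    have h4 := (a2 0).2
    have h5 : (Q 0 : ℝ) = 1024 := by
      have : Q 0 = 1024 := by
        unfold Q
        norm_num
      rw [this]
      norm_num
    rw [h5] at h4
    norm_num at h4
    constructor <;> linarith [h2.1, h2.2]
  · intro j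
    have h1 := be_sub (j + 1)
    have h2 := th_tail (j + 1)
    refine ⟨by linarith [h2.1], by linarith [h2.2], th_succ j, ?_, ?_⟩
    · unfold uu
      rw [Finset.sum_range_succ]
      ring
    · unfold uu
      have : 0 ≤ ∑ i ∈ range j, th i := Finset.sum_nonneg (fun i _ => (th_pos i).le)
      linarith

theorem a7 : A7Stm := by
  intro j
  constructor
  · induction j with
    | zero => simp [uu]
    | succ j ih =>
      have h1 : uu (j + 1) = uu j + (th j + th j) := by
        unfold uu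
        rw [Finset.sum_range_succ]
        ring
      have h2 : (((2 * ∑ i ∈ range (j + 1), Q i : ℕ) : ℝ) * al) =
          ((2 * ∑ i ∈ range j, Q i : ℕ) : ℝ) * al + ((Q j : ℝ) * al + (Q j : ℝ) * al) := by
        rw [Finset.sum_range_succ]
        push_cast
        ring
      rw [h1, h2, AddCircle.coe_add, AddCircle.coe_add, AddCircle.coe_add, AddCircle.coe_add, ih,
        a3 j]
  · induction j with
    | zero => simp
    | succ j ih =>
      rw [Finset.sum_range_succ, Q_succ]
      have h1 := Q_ge j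
      have h2 : 1024 * 1024 * Q j ≤ Q j ^ 3 := by
        have h3 : Q j ^ 3 = Q j * Q j * Q j := by ring
        rw [h3]
        exact Nat.mul_le_mul_right _ (Nat.mul_le_mul h1 h1)
      omega

end Pool.Agent.Y79.RS
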