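import Pool.Agent.Y79.RS.A

set_option autoImplicit false

/-!
# The parity cocycle
-/

namespace Pool.Agent.Y79.RS

open Pool.Agent.Y267.RS Finset

theorem exists_rep (a : ℝ) (z : T1) : ∃ y : ℝ, 0 ≤ y ∧ y < 1 ∧ z = ((a + y : ℝ) : T1) := by
  induction z using QuotientAddGroup.induction_on with
  | H s =>
    refine ⟨Int.fract (s - a), Int.fract_nonneg _, Int.fract_lt_one _, ?_⟩
    have h : s = a + Int.fract (s - a) + ((⌊s - a⌋ : ℤ) : ℝ) := by
      have := Int.fract_add_floor (s - a)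
      linarith
    have h2 : ((((⌊s - a⌋ : ℤ) : ℝ)) : T1) = 0 := by
      rw [AddCircle.coe_eq_zero_iff]
      exact ⟨⌊s - a⌋, by simp⟩
    calc ((s : ℝ) : T1) = ((a + Int.fract (s - a) + ((⌊s - a⌋ : ℤ) : ℝ) : ℝ) : T1) := by
          rw [← h]
      _ = _ := by
          rw [AddCircle.coe_add, h2, add_zero]

theorem rep_unique {y y' : ℝ} (h0 : 0 ≤ y) (h1 : y < 1) (h0' : 0 ≤ y') (h1' : y' < 1)
    (h : ((y : ℝ) : T1) = ((y' : ℝ) : T1)) : y = y' := by
  have h2 : (((y - y' : ℝ)) : T1) = 0 := by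
    rw [AddCircle.coe_sub, h, sub_self]
  rw [AddCircle.coe_eq_zero_iff] at h2
  obtain ⟨n, hn⟩ := h2
  rw [zsmul_eq_mul, mul_one] at hn
  have h3 : (n : ℝ) < 1 := by linarith
  have h4 : (-1 : ℝ) < n := by linarith
  have h5 : n < 1 := by exact_mod_cast h3
  have h6 : -1 < n := by exact_mod_cast h4
  have h7 : n = 0 := by omega
  rw [h7] at hn
  simp only [Int.cast_zero] at hn
  linarith

theorem mem_arc {a l y : ℝ} (hl : l ≤ 1) (h0 : 0 ≤ y) (h1 : y < 1) :
    ((a + y : ℝ) : T1) ∈ arc a l ↔ y < l := by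
  constructor
  · rintro ⟨y', hy', h⟩
    rw [AddCircle.coe_add, AddCircle.coe_add, add_right_inj] at h
    have := rep_unique h0 h1 hy'.1 (lt_of_lt_of_le hy'.2 hl) h
    rw [this]
    exact hy'.2
  · intro h
    exact ⟨y, ⟨h0, h⟩, rfl⟩

theorem ind_add {a l l' : ℝ} (hl : 0 ≤ l) (hl' : 0 ≤ l') (h : l + l' ≤ 1) (z : T1) :
    ind (arc a (l + l')) z = ind (arc a l) z + ind (arc (a + l) l') z := by
  classical
  obtain ⟨y, h0, h1, rfl⟩ := exists_rep a z
  have e1 := mem_arc (a := a) h h0 h1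
  have e2 := mem_arc (a := a) (l := l) (by linarith) h0 h1
  have e3 : ((a + y : ℝ) : T1) ∈ arc (a + l) l' ↔ l ≤ y ∧ y < l + l' := by
    constructor
    · rintro ⟨y', hy', h3⟩
      rw [add_assoc, AddCircle.coe_add, AddCircle.coe_add, add_right_inj] at h3
      have h4 := rep_unique h0 h1 (by linarith [hy'.1]) (by linarith [hy'.2]) h3
      exact ⟨by linarith [hy'.1], by linarith [hy'.2]⟩
    · rintro ⟨h3, h4⟩
      exact ⟨y - l, ⟨by linarith, by linarith⟩, by congr 1; ring⟩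
  unfold ind
  rcases lt_or_ge y l with h5 | h5
  · have n3 : ¬ ((a + y : ℝ) : T1) ∈ arc (a + l) l' := by
      rw [e3]
      intro h6
      linarith [h6.1]
    rw [if_pos (e1.2 (by linarith)), if_pos (e2.2 h5), if_neg n3]
  · have n2 : ¬ ((a + y : ℝ) : T1) ∈ arc a l := by
      rw [e2]
      intro h6
      linarith
    rw [if_neg n2]
    rcases lt_or_ge y (l + l') with h6 | h6
    · rw [if_pos (e1.2 h6), if_pos (e3.2 ⟨h5, h6⟩)]
    · have n1 : ¬ ((a + y : ℝ) : T1) ∈ arc a (l + l') := by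
        rw [e1]
        intro h7
        linarith
      have n3 : ¬ ((a + y : ℝ) : T1) ∈ arc (a + l) l' := by
        rw [e3]
        intro h7
        linarith [h7.2]
      rw [if_neg n1, if_neg n3]

theorem ind_shift (a l c : ℝ) (z : T1) :
    ind (arc a l) (z - ((c : ℝ) : T1)) = ind (arc (a + c) l) z := by
  classical
  have h : z - ((c : ℝ) : T1) ∈ arc a l ↔ z ∈ arc (a + c) l := by
    constructor
    · rintro ⟨y, hy, h⟩
      refine ⟨y, hy, ?_⟩
      rw [sub_eq_iff_eq_add] at h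
      rw [h, ← AddCircle.coe_add]
      congr 1
      ring
    · rintro ⟨y, hy, h⟩
      refine ⟨y, hy, ?_⟩
      rw [sub_eq_iff_eq_add, h, ← AddCircle.coe_add]
      congr 1
      ring
  unfold ind
  by_cases h1 : z - ((c : ℝ) : T1) ∈ arc a l
  · rw [if_pos h1, if_pos (h.1 h1)]
  · rw [if_neg h1, if_neg (fun h2 => h1 (h.2 h2))]

theorem ind_zero (a : ℝ) (z : T1) : ind (arc a 0) z = 0 := by
  classical
  unfold ind
  rw [if_neg]
  rintro ⟨y, hy, -⟩
  exact absurd hy.2 (not_lt.2 hy.1)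

/-- telescoping -/
theorem psi_step (i : ℕ) (z : T1) :
    psi i (z + ((al : ℝ) : T1)) +
      ind (arc (uu i) (th i)) (z - ((((Q i : ℕ) : ℝ) * al : ℝ) : T1)) =
      psi i z + ind (arc (uu i) (th i)) z := by
  set f : T1 → ℕ := ind (arc (uu i) (th i)) with hf
  have h1 : psi i (z + ((al : ℝ) : T1)) =
      ∑ s ∈ range (Q i), f (z - (((s : ℝ) * al : ℝ) : T1)) := by
    unfold psi
    rw [Finset.range_eq_Ico, Finset.sum_Ico_eq_sum_range, ← Finset.Ico_succ_right_eq_Icc,
      Finset.sum_Ico_eq_sum_range]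
    simp only [Nat.succ_eq_succ, Nat.succ_eq_add_one, Nat.add_sub_cancel, Nat.sub_zero, zero_add]
    apply Finset.sum_congr rfl
    intro s _
    congr 1
    push_cast
    rw [add_mul, one_mul, AddCircle.coe_add]
    abel
  have h2 : psi i z + f z = ∑ s ∈ range (Q i + 1), f (z - (((s : ℝ) * al : ℝ) : T1)) := by
    unfold psi
    rw [Finset.sum_range_succ', ← Finset.Ico_succ_right_eq_Icc, Finset.sum_Ico_eq_sum_range]
    congr 1
    · simp only [Nat.succ_eq_succ, Nat.succ_eq_add_one, Nat.add_sub_cancel]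
      apply Finset.sum_congr rfl
      intro s _
      rw [add_comm 1 s]
    · simp
  rw [h2, h1, Finset.sum_range_succ]

theorem psi_sign (h3 : A3Stm) (h6 : A6Stm) (i : ℕ) (z : T1) :
    (-1 : ℝ) ^ psi i (z + ((al : ℝ) : T1)) =
      (-1) ^ psi i z * (-1) ^ ind (arc (uu i) (2 * th i)) z := by
  have h4 := psi_step i z
  rw [h3 i, ind_shift] at h4
  have hth : 0 ≤ th i := (th_pos i).le
  have hle : uu i + 2 * th i ≤ 1 := by
    have h7 := h6.2 i
    rw [← h7.2.2.2.1]
    linarith [h7.1, h6.1.2]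
  have hu : 0 ≤ uu i := (h6.2 i).2.2.2.2
  have h5 := ind_add (a := uu i) hth hth (by linarith) z
  rw [← two_mul] at h5
  rw [h5]
  set A := ind (arc (uu i) (th i)) z
  set B := ind (arc (uu i + th i) (th i)) z
  set P := psi i z
  set P' := psi i (z + ((al : ℝ) : T1))
  have h8 : (-1 : ℝ) ^ P' * (-1) ^ B = (-1) ^ P * (-1) ^ A := by
    rw [← pow_add, ← pow_add, h4]
  have h9 : (-1 : ℝ) ^ B * (-1) ^ B = 1 := by
    rw [← pow_add, ← two_mul, pow_mul]
    norm_num
  rw [pow_add]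
  linear_combination (-1 : ℝ) ^ B * h8 - (-1 : ℝ) ^ P' * h9

theorem ind_uu (h6 : A6Stm) (j : ℕ) (z : T1) :
    ind (arc 0 (uu j)) z = ∑ i ∈ range j, ind (arc (uu i) (2 * th i)) z := by
  induction j with
  | zero =>
    have h : uu 0 = 0 := by simp [uu]
    rw [h, ind_zero, Finset.sum_range_zero]
  | succ j ih =>
    have h7 := h6.2 j
    have h8 := ind_add (a := 0) (l := uu j) (l' := 2 * th j) h7.2.2.2.2
      (by linarith [th_pos j]) (by rw [← h7.2.2.2.1]; linarith [h7.1, h6.1.2]) z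
    rw [← h7.2.2.2.1, zero_add, ih] at h8
    rw [h8, Finset.sum_range_succ]

theorem Psi_sign (h3 : A3Stm) (h6 : A6Stm) (j : ℕ) (z : T1) :
    (-1 : ℝ) ^ Psi j (z + ((al : ℝ) : T1)) =
      (-1) ^ Psi j z * (-1) ^ ind (arc 0 (uu j)) z := by
  rw [ind_uu h6]
  unfold Psi
  induction j with
  | zero => simp
  | succ j ih =>
    rw [Finset.sum_range_succ, Finset.sum_range_succ, Finset.sum_range_succ, pow_add, pow_add,
      pow_add, ih, psi_sign h3 h6]
    ring

theorem rot_succ (x : T1) (t : ℕ) : rot x (t + 1) = rot x t + ((al : ℝ) : T1) := by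
  unfold rot
  push_cast
  rw [add_mul, one_mul, AddCircle.coe_add, add_assoc]

theorem Psi_rot (h3 : A3Stm) (h6 : A6Stm) (j : ℕ) (x : T1) (t : ℕ) :
    (-1 : ℝ) ^ Psi j (rot x t) = (-1) ^ Psi j x * (-1) ^ visits (arc 0 (uu j)) x t := by
  induction t with
  | zero =>
    have h : rot x 0 = x := by simp [rot]
    rw [h]
    simp [visits]
  | succ t ih =>
    rw [rot_succ, Psi_sign h3 h6, ih]
    unfold visits
    rw [Finset.sum_range_succ, pow_add]
    ring

theorem uu_le_be (h6 : A6Stm) (j : ℕ) : uu j ≤ be := by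
  have h7 := h6.2 j
  have := th_pos j
  linarith [h7.1, h7.2.2.2.1]

theorem d1' (h3 : A3Stm) (h6 : A6Stm) : D1Stm := by
  intro j x t
  have h4 : visits (arc 0 be) x t =
      visits (arc 0 (uu j)) x t + visits (arc (uu j) (be - uu j)) x t := by
    unfold visits
    rw [← Finset.sum_add_distrib]
    apply Finset.sum_congr rfl
    intro s _
    have h5 := ind_add (a := 0) (l := uu j) (l' := be - uu j) (h6.2 j).2.2.2.2
      (by linarith [uu_le_be h6 j]) (by linarith [h6.1.2]) (rot x s)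
    rw [add_sub_cancel, zero_add] at h5
    exact h5
  unfold sgn
  rw [h4, pow_add, Psi_rot h3 h6]
  have h9 : (-1 : ℝ) ^ Psi j x * (-1) ^ Psi j x = 1 := by
    rw [← pow_add, ← two_mul, pow_mul]
    norm_num
  linear_combination (-((-1 : ℝ) ^ visits (arc 0 (uu j)) x t *
    (-1) ^ visits (arc (uu j) (be - uu j)) x t)) * h9

theorem d1 (_h1 : A1Stm) (_h2 : A2Stm) (h3 : A3Stm) (h6 : A6Stm) : D1Stm := d1' h3 h6

end Pool.Agent.Y79.RS
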